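import Pool.Agent.Run7.h519.FL.Stm

/-!
# Kalai's flag conjecture (project of helper519): piece L

The lens of an odd univalent entire function and integration against `af` in polar coordinates.
The proof is an adaptation of the files `H2.lean` and `H5.lean` of `Pool/Agent/H712R2/MA` (helpers
760 and 28 of an earlier run).
-/

set_option autoImplicit false

noncomputable section

open MeasureTheory Filter Topology Set
open scoped BigOperators Matrix ENNReal

namespace Run7.h882.FL

open H712MA Run7.h519.FL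

open Classical in
/-- inverse of `h` on the image of the disc (value `1` elsewhere) -/
def inv (h : ℂ → ℂ) (p : ℂ) : ℂ :=
  if hp : ∃ z, z ∈ Metric.ball (0 : ℂ) 1 ∧ h z = p then Classical.choose hp else 1

/-- the image of the disc -/
def W (h : ℂ → ℂ) : Set ℂ := h '' Metric.ball (0 : ℂ) 1

theorem inv_spec {h : ℂ → ℂ} {p : ℂ} (hp : p ∈ W h) : ‖inv h p‖ < 1 ∧ h (inv h p) = p := by
  have hp' : ∃ z, z ∈ Metric.ball (0 : ℂ) 1 ∧ h z = p := hp
  have h1 := Classical.choose_spec hp'
  have e : inv h p = Classical.choose hp' := by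
    unfold inv
    rw [dif_pos hp']
  rw [e]
  exact ⟨by simpa using h1.1, h1.2⟩

theorem inv_off {h : ℂ → ℂ} {p : ℂ} (hp : p ∉ W h) : inv h p = 1 := by
  have hp' : ¬ ∃ z, z ∈ Metric.ball (0 : ℂ) 1 ∧ h z = p := hp
  unfold inv
  rw [dif_neg hp']

theorem mem_W {h : ℂ → ℂ} {z : ℂ} (hz : ‖z‖ < 1) : h z ∈ W h := ⟨z, by simpa using hz, rfl⟩

variable {h h' : ℂ → ℂ} (U : Uni h h')

include U

theorem inv_h {z : ℂ} (hz : ‖z‖ < 1) : inv h (h z) = z := by
  refine U.inj ?_ ?_ (inv_spec (mem_W hz)).2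
  · simpa using (inv_spec (mem_W (h := h) hz)).1
  · simpa using hz

theorem diff : Differentiable ℂ h := fun z => (U.der z).differentiableAt

theorem open_image {O : Set ℂ} (hO : IsOpen O) (hb : O ⊆ Metric.ball 0 1) : IsOpen (h '' O) := by
  rw [isOpen_iff_mem_nhds]
  rintro p ⟨z, hz, rfl⟩
  have hz' : ‖z‖ < 1 := by simpa using hb hz
  have ha : AnalyticAt ℂ h z := (diff U).analyticAt z
  have hs : HasStrictDerivAt h (deriv h z) z := ha.hasStrictDerivAt
  rw [(U.der z).deriv] at hs
  have hm := hs.map_nhds_eq (U.ne z hz'.le)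
  rw [← hm]
  exact image_mem_map (hO.mem_nhds hz)

theorem open_W : IsOpen (W h) := open_image U Metric.isOpen_ball Subset.rfl

theorem contAt {p : ℂ} (hp : p ∈ W h) : ContinuousAt (inv h) p := by
  intro N hN
  obtain ⟨O, hON, hO, hpO⟩ := mem_nhds_iff.1 hN
  have h1 : IsOpen (h '' (O ∩ Metric.ball 0 1)) :=
    open_image U (hO.inter Metric.isOpen_ball) inter_subset_right
  have h2 : p ∈ h '' (O ∩ Metric.ball 0 1) :=
    ⟨inv h p, ⟨hpO, by simpa using (inv_spec hp).1⟩, (inv_spec hp).2⟩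
  refine mem_map.2 (mem_of_superset (h1.mem_nhds h2) ?_)
  rintro q ⟨z, ⟨hz, hz1⟩, rfl⟩
  rw [mem_preimage, inv_h U (by simpa using hz1)]
  exact hON hz

theorem deriv_inv {p : ℂ} (hp : p ∈ W h) : HasDerivAt (inv h) (1 / h' (inv h p)) p := by
  rw [one_div]
  have hlt := (inv_spec hp).1
  refine HasDerivAt.of_local_left_inverse (contAt U hp) (U.der (inv h p)) (U.ne _ hlt.le) ?_
  filter_upwards [(open_W U).mem_nhds hp] with q hq
  exact (inv_spec hq).2

theorem level_eq {r : ℝ} (hr : r < 1) :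
    {p : ℂ | ‖inv h p‖ ≤ r} = h '' Metric.closedBall 0 r := by
  ext p
  constructor
  · intro hp
    simp only [Set.mem_ofPred_eq] at hp
    have hpW : p ∈ W h := by
      by_contra hc
      rw [inv_off hc, norm_one] at hp
      linarith
    exact ⟨inv h p, by simpa using hp, (inv_spec hpW).2⟩
  · rintro ⟨z, hz, rfl⟩
    have hz' : ‖z‖ ≤ r := by simpa using hz
    simp only [Set.mem_ofPred_eq]
    rw [inv_h U (lt_of_le_of_lt hz' hr)]
    exact hz'

theorem level_compact {r : ℝ} (hr : r < 1) : IsCompact {p : ℂ | ‖inv h p‖ ≤ r} := by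
  rw [level_eq U hr]
  exact (isCompact_closedBall (0 : ℂ) r).image_of_continuousOn (diff U).continuous.continuousOn

theorem meas : Measurable (inv h) := by
  classical
  have e : inv h = (W h).piecewise (inv h) (fun _ => 1) := by
    funext p
    by_cases hp : p ∈ W h
    · rw [Set.piecewise_eq_of_mem _ _ _ hp]
    · rw [Set.piecewise_eq_of_notMem _ _ _ hp, inv_off hp]
  rw [e]
  have hc : ContinuousOn (inv h) (W h) := fun _ hp => (contAt U hp).continuousWithinAt
  exact hc.measurable_piecewise continuousOn_const (open_W U).measurableSet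

theorem inv_zero : inv h 0 = 0 := by
  have h2 := inv_h U (z := 0) (by simp)
  rwa [U.zero] at h2

theorem zero_mem : (0 : ℂ) ∈ W h := ⟨0, by simp, U.zero⟩

theorem exists_C : ∃ C : ℝ, ∀ p ∈ W h, ‖p‖ ≤ C * ‖inv h p‖ := by
  obtain ⟨C, hC⟩ := (isCompact_closedBall (0 : ℂ) 1).exists_bound_of_continuousOn
    U.cont.continuousOn
  refine ⟨C, fun p hp => ?_⟩
  have h1 := Convex.norm_image_sub_le_of_norm_hasDerivWithin_le (f := h) (f' := h')
    (s := Metric.closedBall (0 : ℂ) 1) (C := C) (x := 0) (y := inv h p)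
    (fun z _ => (U.der z).hasDerivWithinAt) hC (convex_closedBall 0 1) (by simp)
    (by simpa using (inv_spec hp).1.le)
  rwa [U.zero, sub_zero, sub_zero, (inv_spec hp).2] at h1

theorem exists_B : ∃ B : ℝ, ∀ p ∈ W h, ‖deriv (inv h) p‖ ≤ B := by
  obtain ⟨x, hx, hmin⟩ := (isCompact_closedBall (0 : ℂ) 1).exists_isMinOn
    ⟨0, by simp⟩ U.cont.norm.continuousOn
  have hpos : 0 < ‖h' x‖ := norm_pos_iff.2 (U.ne x (by simpa using hx))
  refine ⟨1 / ‖h' x‖, fun p hp => ?_⟩
  rw [(deriv_inv U hp).deriv, norm_div, norm_one]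
  exact one_div_le_one_div_of_le hpos (hmin (by simpa using (inv_spec hp).1.le))

/-- the lens of `h` -/
def lens : Lens where
  W := W h
  e := inv h
  c0 := 1 / Classical.choose U.pos
  C := Classical.choose (exists_C U)
  B := Classical.choose (exists_B U)
  isOpen := open_W U
  zero_mem := zero_mem U
  diff := fun p hp => (deriv_inv U hp).differentiableAt.differentiableWithinAt
  lt := fun p hp => (inv_spec hp).1
  off := fun p hp => inv_off hp
  comp := fun r hr => level_compact U hr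
  e_zero := inv_zero U
  c0_pos := one_div_pos.2 (Classical.choose_spec U.pos).1
  deriv_zero := by
    have e := (Classical.choose_spec U.pos).2
    have e2 : deriv (inv h) 0 = 1 / h' 0 := by
      rw [(deriv_inv U (zero_mem U)).deriv, inv_zero U]
    rw [e2]
    push_cast
    exact congrArg (fun x => 1 / x) e
  hC := Classical.choose_spec (exists_C U)
  hB := Classical.choose_spec (exists_B U)

omit U in
/-- real determinant of the multiplication by a complex number -/
theorem det_mul (c : ℂ) :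
    ((ContinuousLinearMap.toSpanSingleton ℂ c).restrictScalars ℝ).det = ‖c‖ ^ 2 := by
  have h : (((ContinuousLinearMap.toSpanSingleton ℂ c).restrictScalars ℝ : ℂ →L[ℝ] ℂ) :
      ℂ →ₗ[ℝ] ℂ) = LinearMap.mulLeft ℝ c := by
    ext z; simp [mul_comm]
  rw [ContinuousLinearMap.det, h]
  have h2 : LinearMap.det (LinearMap.mulLeft ℝ c) = Algebra.norm ℝ c := by
    rw [Algebra.norm_apply]; rfl
  rw [h2, Algebra.norm_complex_apply, Complex.normSq_eq_norm_sq]

/-- change of variables `p = h(z)` -/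
theorem cov (g : ℂ → ℝ≥0∞) :
    ∫⁻ p in W h, g p = ∫⁻ z in Metric.ball (0 : ℂ) 1, ENNReal.ofReal (‖h' z‖ ^ 2) * g (h z) := by
  have hh := lintegral_image_eq_lintegral_abs_det_fderiv_mul (volume : Measure ℂ)
    (s := Metric.ball (0 : ℂ) 1) (f := h)
    (f' := fun z => (ContinuousLinearMap.toSpanSingleton ℂ (h' z)).restrictScalars ℝ)
    measurableSet_ball (fun z hz => ((U.der z).hasFDerivAt.restrictScalars ℝ).hasFDerivWithinAt)
    U.inj g
  simp only [det_mul] at hh
  unfold W
  rw [hh]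
  refine lintegral_congr fun z => ?_
  rw [abs_of_nonneg (by positivity)]

omit U in
/-- polar coordinates on the disc -/
theorem polar (f : ℂ → ℝ≥0∞) (hf : Measurable f) :
    ∫⁻ z in Metric.ball (0 : ℂ) 1, f z =
      ∫⁻ θ in Ioo (-Real.pi) Real.pi, ∫⁻ r in Ioo (0 : ℝ) 1,
        ENNReal.ofReal r * f ((r : ℂ) * Complex.exp (θ * Complex.I)) := by
  classical
  set g : ℂ → ℝ≥0∞ := (Metric.ball (0 : ℂ) 1).indicator f with hg
  have hgm : Measurable g := hf.indicator measurableSet_ball
  rw [← lintegral_indicator measurableSet_ball]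
  change ∫⁻ z, g z = _
  rw [← Complex.lintegral_comp_polarCoord_symm]
  have hsymm : Measurable fun p : ℝ × ℝ => Complex.polarCoord.symm p := by
    have : (fun p : ℝ × ℝ => Complex.polarCoord.symm p) =
        fun p : ℝ × ℝ => (p.1 : ℂ) * (Real.cos p.2 + Real.sin p.2 * Complex.I) := by
      funext p; exact Complex.polarCoord_symm_apply p
    rw [this]
    fun_prop
  rw [show (polarCoord.target : Set (ℝ × ℝ)) = Ioi (0 : ℝ) ×ˢ Ioo (-Real.pi) Real.pi from rfl,
    Measure.volume_eq_prod, ← Measure.prod_restrict]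
  rw [lintegral_prod_symm _ (by
    exact ((ENNReal.measurable_ofReal.comp measurable_fst).smul (hgm.comp hsymm)).aemeasurable)]
  refine lintegral_congr fun θ => ?_
  have e1 : ∀ r : ℝ, Complex.polarCoord.symm (r, θ) = (r : ℂ) * Complex.exp (θ * Complex.I) := by
    intro r
    rw [Complex.polarCoord_symm_apply, Complex.exp_mul_I, Complex.ofReal_cos, Complex.ofReal_sin]
  rw [← lintegral_indicator measurableSet_Ioi, ← lintegral_indicator measurableSet_Ioo]
  refine lintegral_congr fun r => ?_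
  by_cases h0 : 0 < r
  · rw [indicator_of_mem (show r ∈ Ioi (0 : ℝ) from h0)]
    dsimp only
    rw [e1, hg]
    have hn : ‖(r : ℂ) * Complex.exp (θ * Complex.I)‖ = r := by
      rw [norm_mul, Complex.norm_exp_ofReal_mul_I, mul_one, Complex.norm_real,
        Real.norm_of_nonneg h0.le]
    by_cases h1 : r < 1
    · rw [indicator_of_mem (show r ∈ Ioo (0 : ℝ) 1 from ⟨h0, h1⟩), indicator_of_mem (by
        rw [Metric.mem_ball, dist_zero_right, hn]; exact h1), smul_eq_mul]
    · rw [indicator_of_notMem (show r ∉ Ioo (0 : ℝ) 1 from fun h => h1 h.2), indicator_of_notMem (by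
        rw [Metric.mem_ball, dist_zero_right, hn]; exact h1), smul_zero]
  · rw [indicator_of_notMem (show r ∉ Ioi (0 : ℝ) from h0),
      indicator_of_notMem (show r ∉ Ioo (0 : ℝ) 1 from fun h => h0 h.1)]

/-- the coefficient in the disc -/
theorem af_h (m : ℕ) (z : ℂ) (hz : ‖z‖ < 1) :
    ‖h' z‖ ^ 2 * af (lens U) m (h z) = (m : ℝ) ^ 2 * ‖z‖ ^ (2 * (m - 1)) := by
  have hmem : h z ∈ W h := mem_W hz
  have hne : ‖h' z‖ ≠ 0 := norm_ne_zero_iff.2 (U.ne z hz.le)
  have hd1 : deriv (lens U).e (h z) = 1 / h' z := by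
    show deriv (inv h) (h z) = _
    rw [(deriv_inv U hmem).deriv, inv_h U hz]
  have hd2 : (lens U).e (h z) = z := inv_h U hz
  unfold af gd
  rw [if_pos (show h z ∈ (lens U).W from hmem), hd1, hd2, norm_mul, norm_mul, norm_pow,
    Complex.norm_natCast, norm_div, norm_one]
  field_simp
  rw [← pow_mul, mul_comm (m - 1) 2]

theorem af_off (m : ℕ) (p : ℂ) (hp : p ∉ W h) : af (lens U) m p = 0 := by
  unfold af gd
  rw [if_neg (show ¬ p ∈ (lens U).W from hp)]
  simp

/-- integrals against `a` are integrals over the disc -/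
theorem int_disc (m : ℕ) (b : ℂ → ℝ≥0∞) :
    ∫⁻ p, ENNReal.ofReal (af (lens U) m p) * b p =
      ∫⁻ z in Metric.ball (0 : ℂ) 1,
        ENNReal.ofReal ((m : ℝ) ^ 2 * ‖z‖ ^ (2 * (m - 1))) * b (h z) := by
  have e1 : ∫⁻ p, ENNReal.ofReal (af (lens U) m p) * b p =
      ∫⁻ p in W h, ENNReal.ofReal (af (lens U) m p) * b p := by
    rw [← lintegral_indicator (open_W U).measurableSet]
    refine lintegral_congr fun p => ?_
    by_cases hp : p ∈ W h
    · rw [indicator_of_mem hp]
    · rw [indicator_of_notMem hp, af_off U m p hp, ENNReal.ofReal_zero, zero_mul]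
  rw [e1, cov U]
  refine setLIntegral_congr_fun measurableSet_ball fun z hz => ?_
  rw [Metric.mem_ball, dist_zero_right] at hz
  rw [← mul_assoc, ← ENNReal.ofReal_mul (by positivity), af_h U m z hz]

omit U in
/-- the substitution `R = r ^ (2 m)` -/
theorem subst (m : ℕ) (hm : 1 ≤ m) (b : ℂ → ℝ≥0∞) (θ : ℝ) :
    ∫⁻ r in Ioo (0 : ℝ) 1, ENNReal.ofReal r *
        (ENNReal.ofReal ((m : ℝ) ^ 2 * ‖(r : ℂ) * Complex.exp (θ * Complex.I)‖ ^ (2 * (m - 1))) *
          b (h ((r : ℂ) * Complex.exp (θ * Complex.I)))) =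
      ∫⁻ R in Ioo (0 : ℝ) 1, ENNReal.ofReal ((m : ℝ) / 2) * b (h (pt m (R, θ))) := by
  have hm0 : (0 : ℝ) < m := by exact_mod_cast hm
  have himg : (fun r : ℝ => r ^ (2 * m)) '' Ioo (0 : ℝ) 1 = Ioo (0 : ℝ) 1 := by
    ext R
    constructor
    · rintro ⟨r, hr, rfl⟩
      exact ⟨pow_pos hr.1 _, pow_lt_one₀ hr.1.le hr.2 (by omega)⟩
    · intro hR
      refine ⟨R ^ ((1 : ℝ) / (2 * m)), ⟨Real.rpow_pos_of_pos hR.1 _,
        Real.rpow_lt_one hR.1.le hR.2 (by positivity)⟩, ?_⟩
      beta_reduce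
      rw [← Real.rpow_natCast, ← Real.rpow_mul hR.1.le]
      have : (1 : ℝ) / (2 * m) * ((2 * m : ℕ) : ℝ) = 1 := by
        push_cast
        field_simp
      rw [this, Real.rpow_one]
  have hinj : InjOn (fun r : ℝ => r ^ (2 * m)) (Ioo (0 : ℝ) 1) := by
    intro r hr s hs e
    exact (pow_left_inj₀ hr.1.le hs.1.le (by omega)).1 e
  have key := lintegral_image_eq_lintegral_abs_deriv_mul (s := Ioo (0 : ℝ) 1)
    (f := fun r : ℝ => r ^ (2 * m)) (f' := fun r : ℝ => ((2 * m : ℕ) : ℝ) * r ^ (2 * m - 1))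
    measurableSet_Ioo (fun r _ => (hasDerivAt_pow (2 * m) r).hasDerivWithinAt) hinj
    (fun R => ENNReal.ofReal ((m : ℝ) / 2) * b (h (pt m (R, θ))))
  rw [himg] at key
  rw [key]
  refine setLIntegral_congr_fun measurableSet_Ioo fun r hr => ?_
  have hr0 : 0 < r := hr.1
  have e1 : ‖(r : ℂ) * Complex.exp (θ * Complex.I)‖ = r := by
    rw [norm_mul, Complex.norm_exp_ofReal_mul_I, mul_one, Complex.norm_real,
      Real.norm_of_nonneg hr0.le]
  have e2 : pt m (r ^ (2 * m), θ) = (r : ℂ) * Complex.exp (θ * Complex.I) := by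
    unfold pt
    have : (r ^ (2 * m)) ^ ((1 : ℝ) / (2 * m)) = r := by
      rw [← Real.rpow_natCast, ← Real.rpow_mul hr0.le]
      have : ((2 * m : ℕ) : ℝ) * ((1 : ℝ) / (2 * m)) = 1 := by
        push_cast
        field_simp
      rw [this, Real.rpow_one]
    rw [this]
  rw [e1, e2, ← mul_assoc, ← mul_assoc, ← ENNReal.ofReal_mul hr0.le,
    ← ENNReal.ofReal_mul (abs_nonneg _)]
  congr 2
  rw [abs_of_nonneg (by positivity)]
  have e3 : 2 * m - 1 = 2 * (m - 1) + 1 := by omega
  rw [e3, pow_succ]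
  push_cast
  ring

omit U in
theorem meas_pt (m : ℕ) : Measurable (pt m) := by
  unfold pt
  fun_prop

/-- the formula -/
theorem formula (m : ℕ) (hm : 1 ≤ m) (b : ℂ → ℝ≥0∞) (hb : Measurable b) :
    ∫⁻ p, ENNReal.ofReal (af (lens U) m p) * b p =
      ENNReal.ofReal ((m : ℝ) / 2) * ∫⁻ q in QQ, b (h (pt m q)) := by
  have hhm : Measurable h := (diff U).continuous.measurable
  have hcm : Measurable fun q : ℝ × ℝ => ENNReal.ofReal ((m : ℝ) / 2) * b (h (pt m q)) :=
    (hb.comp (hhm.comp (meas_pt m))).const_mul _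
  have hbm : Measurable fun q : ℝ × ℝ => b (h (pt m q)) := hb.comp (hhm.comp (meas_pt m))
  rw [int_disc U, polar _ (by
    refine Measurable.mul ?_ (hb.comp hhm)
    exact ENNReal.measurable_ofReal.comp (by fun_prop)),
    ← lintegral_const_mul _ hbm]
  unfold QQ
  rw [Measure.volume_eq_prod, ← Measure.prod_restrict, lintegral_prod_symm _ hcm.aemeasurable]
  refine lintegral_congr fun θ => ?_
  exact subst m hm b θ

omit U in
/-- **PIECE L** -/
theorem L : S_L := by
  intro h h' U
  exact ⟨lens U, rfl, fun z hz => inv_h U hz, meas U, fun m hm b hb => formula U m hm b hb⟩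

end Run7.h882.FL
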